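import Pool.Agent.NH44.LT.Main

/-!
# The question of Nazarov, Polterovich and Sodin for all Liouville tori

The torus is `ℝ × ℝ` modulo the lattice generated by `(L, 0)` and `(0, 2π)`, with the Liouville metric
`(f(x) + g(y))(dx² + dy²)`, where `f` and `g` are any continuous functions (`L`- and `2π`-periodic)
with `f(x) + g(y) > 0`; neither analyticity nor smoothness is assumed.

For every such torus and all constants `C, C₁, C₂ > 0` there is a constant `a` such that for every
eigenfunction `φ`, of any eigenvalue `lam` and any multiplicity of `lam`, and every admissible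
covering of the torus by discs of radius `C / √lam`, the sum of the doubling indices of the discs is
at most `a` times the number of the discs. This is the statement of Q1 for these surfaces.

Proof. (i) The eigenspaces have finite dimension and are spanned by joint eigenfunctions of
`∂_x² + lam f`; hence the restriction of `φ` to a line `x = const` or `y = const` is a finite sum of
periodic eigenfunctions `w_k` of `B = -d²/dt² + q` with `q > 0`. By the maximum principle `B F` has
at least as many zeros in a period as `F`; iterating, the sum has at most as many zeros as its top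
component, that is at most `C √lam` (a theorem of Sturm's type). (ii) Local lemma: a solution `U` of
`U_xx + U_yy + (a(x) + b(y)) U = 0` with small `a`, `b` is the real part of a solution `w` of
`∂̄ w = b₁ conj w` with small `b₁`, and by the similarity principle `w e^{-s}` is holomorphic (up to
an arbitrarily small error) with `|s| ≤ 1/2`. If `U` has at most `n` zeros on the boundary of a
rectangle, the argument of the holomorphic function varies by at most `C (n + 1)` on it, and hence
the growth of `U` inside of the rectangle is at most `exp (C (n + 1))`. (iii) On a grid of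
non exceptional lines with mesh `≈ 1 / √lam` the eigenfunction has at most `C (1 + lam)` zeros by
(i), every zero is close to a bounded number of centers, and the doubling index of a disc is at most
`C (n + 1)`, where `n` is the number of zeros on the lines of the grid close to the center, by (ii).
-/

set_option autoImplicit false

namespace Pool.Agent.Results.MP_c7f82c_an.AllLiouvilleTori

open Pool.Agent.Y291.DB

/-- Let `f`, `g` be continuous, `L`-periodic and `2π`-periodic, with `f(x) + g(y) > 0`, and consider
the torus `ℝ²/(Lℤ × 2πℤ)` with the metric `(f(x) + g(y))(dx² + dy²)`. For all `C, C₁, C₂ > 0` there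
is `a` such that for every eigenfunction `φ` with eigenvalue `lam` and every admissible covering
for `φ` with the constants `C, C₁, C₂`, the average of the doubling indices of the discs is at
most `a`. -/
theorem result (f g : ℝ → ℝ) (L : ℝ) (hL : 0 < L) (hf : Continuous f) (hg : Continuous g)
    (hfL : ∀ x, f (x + L) = f x) (hgp : ∀ y, g (y + 2 * Real.pi) = g y)
    (hpos : ∀ x y, 0 < f x + g y) (C C₁ C₂ : ℝ) (hC : 0 < C) (hC₁ : 0 < C₁) (hC₂ : 0 < C₂) :
    ∃ a : ℝ, 0 < a ∧ ∀ (lam : ℝ) (φ : ℝ × ℝ → ℝ), Eigen (fun p => f p.1 + g p.2) L 0 lam φ →
      ∀ (ι : Type) [Fintype ι] (c : ι → ℝ × ℝ),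
        Admissible (fun p => f p.1 + g p.2) L 0 lam φ C C₁ C₂ c →
        (∑ i, doubling (fun p => f p.1 + g p.2) L 0 φ (c i) (C / Real.sqrt lam)) /
          Fintype.card ι ≤ a := by
  obtain ⟨a, ha, H⟩ := Pool.Agent.NH44.LT.main hf hg hL hfL hgp hpos hC hC₁ hC₂
  refine ⟨a, ha, fun lam φ hφ ι _ c hc => ?_⟩
  have h1 := H lam φ hφ ι c hc
  have h2 : (0 : ℝ) < Fintype.card ι := lt_of_lt_of_le (mul_pos (inv_pos.2 hC₂) hφ.pos) hc.lower
  rw [div_le_iff₀ h2]
  exact h1

end Pool.Agent.Results.MP_c7f82c_an.AllLiouvilleTori
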