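import Pool.Agent.NH44.LS.Main

/-!
# The question of Nazarov, Polterovich and Sodin for all Liouville spheres

The surface is the quotient of `ℝ × ℝ` by the translations by `(L, 0)` and `(0, 2π)` and by
`p ↦ -p`, with the metric `(f(x) + g(y))(dx² + dy²)`, where `f` and `g` are even, continuous and
periodic, and comparable to `sin²(2πx/L)` and `sin² y`. The quotient is a sphere, the quotient map is
branched at the points `(L/2) ℤ × π ℤ`, where the metric vanishes to the second order upstairs, so
that it is comparable to a smooth metric downstairs. (All Liouville metrics on the sphere without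
rotational symmetry have this form, with smooth `f` and `g`; for example the triaxial ellipsoids,
in elliptic coordinates.)

For every such sphere and all constants `C, C₁, C₂ > 0` there is a constant `a` such that for every
eigenfunction `φ`, of any eigenvalue `lam` and any multiplicity of `lam`, and every admissible
covering of the sphere by discs of radius `C / √lam`, the average of the doubling indices of the
discs is at most `a`. This is the statement of Q1 for these surfaces.

Proof. (i) On the lines `x = const` and `y = const` the eigenfunction has at most `C √lam` zeros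
(Sturm's theorem for sums of solutions with several separation constants, `LT.zeros_lines`).
(ii) Geometry close to the branch points: with `w = |sin(2πx/L)| + |sin y|` and `d ≈ 1 / √(1 + lam)`
the geodesic discs of radius `C / √lam` are comparable with squares of side `h = d / (w + √d)`; the
inclusion of the large disc in a square uses that a curve of length `E` in the metric
`(sin²(κu) + sin² v)(du² + dv²)` satisfies `|Δu| (w + √E) ≤ C E`. (iii) Local lemma: by the
similarity principle and the argument principle the growth on a square of side `δ = β h` is at most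
`exp (C (n + 1))`, where `n` is the number of zeros on four lines; here `δ² lam ρ` is small.
(iv) The lines are chosen by averaging over the lines which meet the square, and the sum over the
discs of the averages is estimated by integrating the number of zeros over all lines with the
weights `1 / δ ≤ C √(1 + lam)`, as the squares with comparable sides have bounded multiplicity.
-/

set_option autoImplicit false

namespace Pool.Agent.Results.MP_c7f82c_an.LiouvilleSpheres

open Pool.Agent.NH44.LS

/-- Let `f`, `g` be continuous and even, `f` of period `L`, `g` of period `2π`, with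
`m sin²(2πx/L) ≤ f(x) ≤ M sin²(2πx/L)` and `m sin² y ≤ g(y) ≤ M sin² y`, `m > 0`, and consider the
sphere `ℝ × ℝ / (Lℤ × 2πℤ, ±1)` with the metric `(f(x) + g(y))(dx² + dy²)`. For all `C, C₁, C₂ > 0`
there is `a` such that for every eigenfunction `φ` with eigenvalue `lam` and every admissible
covering for `φ` with the constants `C, C₁, C₂`, the average of the doubling indices of the discs
is at most `a`. -/
theorem result (f g : ℝ → ℝ) (L m M : ℝ) (hf : Continuous f) (hg : Continuous g) (hL : 0 < L)
    (hfL : ∀ x, f (x + L) = f x) (hgp : ∀ y, g (y + 2 * Real.pi) = g y)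
    (_hfe : ∀ x, f (-x) = f x) (_hge : ∀ y, g (-y) = g y) (hm : 0 < m)
    (hfb : ∀ x, m * Real.sin (2 * Real.pi / L * x) ^ 2 ≤ f x ∧
      f x ≤ M * Real.sin (2 * Real.pi / L * x) ^ 2)
    (hgb : ∀ y, m * Real.sin y ^ 2 ≤ g y ∧ g y ≤ M * Real.sin y ^ 2)
    (C C₁ C₂ : ℝ) (hC : 0 < C) (hC₁ : 0 < C₁) (hC₂ : 0 < C₂) :
    ∃ a : ℝ, 0 < a ∧ ∀ (lam : ℝ) (φ : ℝ × ℝ → ℝ),
      Eigen (fun p => f p.1 + g p.2) L lam φ →
      ∀ (ι : Type) [Fintype ι] (c : ι → ℝ × ℝ),
        Admissible (fun p => f p.1 + g p.2) L lam φ C C₁ C₂ c →
        (∑ i, doubling (fun p => f p.1 + g p.2) L φ (c i) (C / Real.sqrt lam)) /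
          Fintype.card ι ≤ a := by
  obtain ⟨a, ha, H⟩ := main hf hg hL hfL hgp hm hfb hgb hC hC₁ hC₂
  refine ⟨a, ha, fun lam φ hφ ι _ c hc => ?_⟩
  have h1 := H lam φ hφ ι c hc
  have h2 : (0 : ℝ) < Fintype.card ι := lt_of_lt_of_le (mul_pos (inv_pos.2 hC₂) hφ.pos) hc.lower
  rw [div_le_iff₀ h2]
  exact h1

end Pool.Agent.Results.MP_c7f82c_an.LiouvilleSpheres
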