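import Pool.Agent.NH44.SR.Main

/-!
# The question of Nazarov, Polterovich and Sodin for all spheres of revolution

The surface is the unit sphere `x² + y² + z² = 1` with the metric `ρ(z) g`, where `g` is the round
metric and `ρ` is any continuous function which is positive on `[-1, 1]`; neither analyticity nor
smoothness is assumed. (Every sphere of revolution, that is, every metric on the sphere invariant
under rotations, is isometric to one of these, by the conformal coordinate on the meridians.)

For every such sphere and all constants `C, C₁, C₂ > 0` there is a constant `a` such that for every
eigenfunction `φ`, of any eigenvalue `lam` and any multiplicity of `lam`, and every admissible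
covering of the sphere by discs of radius `C / √lam`, the average of the doubling indices of the
discs is at most `a`. This is the statement of Q1 for these surfaces.

Proof. (i) In Mercator's coordinates `(s, θ)` the eigenfunction is a bounded solution `U` of
`U_ss + U_θθ + Q(s) U = 0`, `0 ≤ Q ≤ 4 lam max ρ e^{-2|s|}`, and a finite sum of modes. On a circle
`s = const` Sturm's theorem gives at most `C √lam` zeros. On a meridian `θ = const` the function is
a sum of bounded solutions of `v'' = (m² - Q) v` on the whole line; with `B = -d²/ds² + Λ - Q` the
function `B F` has at least as many zeros as `F`, and iterating one compares with the top component,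
which has no zeros on the tails (a maximum principle, which also controls the other components by
it) and no zero close to a zero of its derivative in the middle: again at most `C √lam` zeros.
(ii) Local lemma: by the similarity principle and the argument principle the growth of `U` on a
square of side `δ`, with `δ² Q` small near the square, is at most `exp (C (n + 1))`, where `n` is
the number of zeros on four lines. (iii) The discs are covered by squares of side
`δ ≈ cosh s / √(1 + lam)` (close to the poles this is of size one, and the polar caps are
controlled by the maximum principle); the lines are chosen by averaging over the lines which meet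
the square, and the sum over the discs of the averages is estimated by integrating the number of
zeros over all lines, with the weights `1 / δ`.
-/

set_option autoImplicit false

namespace Pool.Agent.Results.MP_c7f82c_an.SpheresOfRevolution

open Pool.Agent.NH44.SR

/-- Let `ρ` be continuous and positive on `[-1, 1]`, and consider the unit sphere with the metric
`ρ(z) g`, `g` the round metric. For all `C, C₁, C₂ > 0` there is `a` such that for every
eigenfunction `φ` with eigenvalue `lam` and every admissible covering for `φ` with the constants
`C, C₁, C₂`, the average of the doubling indices of the discs is at most `a`. -/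
theorem result (ρ : ℝ → ℝ) (hρ : Continuous ρ) (hpos : ∀ z ∈ Set.Icc (-1 : ℝ) 1, 0 < ρ z)
    (C C₁ C₂ : ℝ) (hC : 0 < C) (hC₁ : 0 < C₁) (hC₂ : 0 < C₂) :
    ∃ a : ℝ, 0 < a ∧ ∀ (lam : ℝ) (φ : ℝ × ℝ × ℝ → ℝ), Eigen ρ lam φ →
      ∀ (ι : Type) [Fintype ι] (c : ι → ℝ × ℝ × ℝ), Admissible ρ lam φ C C₁ C₂ c →
        (∑ i, doubling ρ φ (c i) (C / Real.sqrt lam)) / Fintype.card ι ≤ a := by
  obtain ⟨a, ha, H⟩ := main hρ hpos hC hC₁ hC₂
  refine ⟨a, ha, fun lam φ hφ ι _ c hc => ?_⟩
  have h1 := H lam φ hφ ι c hc
  have h2 : (0 : ℝ) < Fintype.card ι := lt_of_lt_of_le (mul_pos (inv_pos.2 hC₂) hφ.pos) hc.lower
  rw [div_le_iff₀ h2]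
  exact h1

end Pool.Agent.Results.MP_c7f82c_an.SpheresOfRevolution
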