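import Pool.Agent.NH44.TT.Main

/-!
# Average doubling index on all tori with a one-parameter group of isometries

The torus is `ℝ × ℝ` modulo the lattice generated by `(L, α)` and `(0, 2π)`, with the metric
`f(x)(dx² + dy²)`, where `f` is any continuous `L`-periodic positive function and the twist `α` is
any real number. (A metric on the torus with a nonzero Killing field is of this form in isothermal
coordinates.)  The average of the doubling indices of the discs of an admissible covering is
bounded, for all eigenfunctions.

Proof. The local lemma of the earlier files bounds the growth of the eigenfunction on a square by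
the number of its zeros on the sides of a slightly larger rectangle. The vertical circles carry at
most `C √λ` zeros (Sturm). The horizontal lines are not closed when `α / π` is irrational. On a
segment of length `l` of a horizontal line there are at most `2 √Λ l + k₀` zeros, where
`Λ = λ max f` and `k₀` depends on the eigenfunction and on the line: apply a large power of the
operator `-∂² + q` to the restriction, which is a sum of quasi-periodic solutions; each application
loses at most two zeros, and the mode with the largest eigenvalue dominates; a quasi-periodic
solution and its derivative are not simultaneously small. So there is a translate of the grid of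
horizontal lines with few zeros on all of its lines together, by averaging over the translations by
multiples of `α`.
-/

set_option autoImplicit false

namespace Pool.Agent.Results.MP_c7f82c_an.TwistedTori

open Pool.Agent.Y291.DB

/-- Let `f` be continuous, `L`-periodic and positive, `α` any real number, and consider the torus
`ℝ²/(ℤ(L, α) + ℤ(0, 2π))` with the metric `f(x)(dx² + dy²)`. For all `C, C₁, C₂ > 0` there is `a`
such that for every `lam > 0`, every real eigenfunction `φ` with eigenvalue `lam` and every
admissible covering for `φ` with constants `C`, `C₁`, `C₂` the average of the doubling indices of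
the discs is at most `a`. -/
theorem result (f : ℝ → ℝ) (L α : ℝ) (hL : 0 < L) (hf : Continuous f)
    (hfL : ∀ x, f (x + L) = f x) (hpos : ∀ x, 0 < f x) (C C₁ C₂ : ℝ) (hC : 0 < C) (hC1 : 0 < C₁)
    (hC2 : 0 < C₂) :
    ∃ a : ℝ, 0 < a ∧ ∀ (lam : ℝ) (φ : ℝ × ℝ → ℝ), Eigen (fun p => f p.1) L α lam φ →
      ∀ (ι : Type) [Fintype ι] (c : ι → ℝ × ℝ),
        Admissible (fun p => f p.1) L α lam φ C C₁ C₂ c →
        (∑ i, doubling (fun p => f p.1) L α φ (c i) (C / Real.sqrt lam)) / Fintype.card ι ≤ a := by
  obtain ⟨a, ha, h⟩ := Pool.Agent.NH44.TT.main (α := α) hL hf hfL hpos hC hC1 hC2
  refine ⟨a, ha, fun lam φ hφ ι _ c hc => ?_⟩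
  have h1 : (0 : ℝ) < Fintype.card ι := lt_of_lt_of_le (by
    have := hφ.pos
    positivity) hc.lower
  rw [div_le_iff₀ h1]
  exact h lam φ hφ ι c hc

end Pool.Agent.Results.MP_c7f82c_an.TwistedTori
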